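import Pool.Agent.N804.LI.Stm

set_option autoImplicit false
set_option linter.unusedSectionVars false

/-! # Project LI: the Bessel product as a sum over balanced words -/

namespace Pool.Agent.N767.LI.BES

open Filter Topology MeasureTheory
open Pool.Agent.N804.LI

/-- the sign -/
def sgn (b : Bool) : ℤ := if b then 1 else -1

section words

variable {ι : Type} [DecidableEq ι]

/-- the excess of the letter `i` -/
def ex (p : Wd (ι × Bool)) (i : ι) : ℤ := ∑ j, if (p.2 j).1 = i then sgn (p.2 j).2 else 0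

lemma ex_eq (p : Wd (ι × Bool)) (i : ι) :
    ex p i = (Nat.card {j : Fin p.1 // p.2 j = (i, true)} : ℤ) -
      (Nat.card {j : Fin p.1 // p.2 j = (i, false)} : ℤ) := by
  classical
  rw [Nat.card_eq_fintype_card, Nat.card_eq_fintype_card, Fintype.card_subtype,
    Fintype.card_subtype, Finset.natCast_card_filter, Finset.natCast_card_filter,
    ← Finset.sum_sub_distrib]
  unfold ex
  refine Finset.sum_congr rfl fun j _ => ?_
  rcases h : p.2 j with ⟨a, b⟩
  simp only [Prod.mk.injEq]
  cases b <;> by_cases ha : a = i <;> simp [ha, sgn]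

lemma bal_iff (p : Wd (ι × Bool)) : Bal p ↔ ∀ i, ex p i = 0 := by
  unfold Bal
  refine forall_congr' fun i => ?_
  rw [ex_eq, sub_eq_zero, Nat.cast_inj]

end words

section fin

/-- Lebesgue measure on the unit interval -/
noncomputable def m1 : Measure ℝ := volume.restrict (Set.Ioc 0 1)

instance : IsProbabilityMeasure m1 := ⟨by
  unfold m1
  rw [Measure.restrict_apply_univ, Real.volume_Ioc]
  simp⟩

lemma int_char (m : ℤ) : ∫ u, Complex.exp ((m : ℂ) * (2 * Real.pi * Complex.I * (u : ℂ))) ∂m1 =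
    if m = 0 then 1 else 0 := by
  have h0 : ∫ u, Complex.exp ((m : ℂ) * (2 * Real.pi * Complex.I * (u : ℂ))) ∂m1 =
      ∫ u in (0 : ℝ)..1, Complex.exp ((m : ℂ) * (2 * Real.pi * Complex.I * (u : ℂ))) := by
    rw [intervalIntegral.integral_of_le zero_le_one]
    rfl
  rw [h0]
  split_ifs with hm
  · rw [hm]
    simp
  · have hc : ((m : ℂ) * (2 * Real.pi * Complex.I)) ≠ 0 :=
      mul_ne_zero (by exact_mod_cast hm) Complex.two_pi_I_ne_zero
    have h1 : ∀ u : ℝ, Complex.exp ((m : ℂ) * (2 * Real.pi * Complex.I * (u : ℂ))) =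
        Complex.exp (((m : ℂ) * (2 * Real.pi * Complex.I)) * (u : ℂ)) := by
      intro u
      congr 1
      ring
    simp only [h1]
    rw [integral_exp_mul_complex hc]
    simp only [Complex.ofReal_one, mul_one, Complex.ofReal_zero, mul_zero, Complex.exp_zero]
    rw [Complex.exp_int_mul_two_pi_mul_I, sub_self, zero_div]

lemma I0_int (x : ℝ) : (I0 (2 * x) : ℂ) = ∫ u, Complex.exp ((x : ℂ) *
    (Complex.exp (((sgn true : ℤ) : ℂ) * (2 * Real.pi * Complex.I * (u : ℂ))) +
      Complex.exp (((sgn false : ℤ) : ℂ) * (2 * Real.pi * Complex.I * (u : ℂ))))) ∂m1 := by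
  unfold I0
  rw [← intervalIntegral.integral_ofReal, intervalIntegral.integral_of_le zero_le_one]
  refine integral_congr_ae (Filter.Eventually.of_forall fun u => ?_)
  simp only
  rw [Complex.ofReal_exp]
  congr 1
  push_cast
  rw [Complex.cos]
  simp only [sgn, if_true, Bool.false_eq_true, if_false]
  push_cast
  have e1 : (2 * (Real.pi : ℂ) * (u : ℂ) * Complex.I) = 1 * (2 * Real.pi * Complex.I * (u : ℂ)) := by
    ring
  have e2 : (-(2 * (Real.pi : ℂ) * (u : ℂ)) * Complex.I) =
      -1 * (2 * Real.pi * Complex.I * (u : ℂ)) := by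
    ring
  rw [e1, e2]
  ring

variable {α : Type} [Fintype α] [DecidableEq α]

/-- the characters -/
noncomputable def zt (u : α → ℝ) (k : α × Bool) : ℂ :=
  Complex.exp (((sgn k.2 : ℤ) : ℂ) * (2 * Real.pi * Complex.I * (u k.1 : ℂ)))

lemma zt_norm (u : α → ℝ) (k : α × Bool) : ‖zt u k‖ = 1 := by
  unfold zt
  have : ((sgn k.2 : ℤ) : ℂ) * (2 * Real.pi * Complex.I * (u k.1 : ℂ)) =
      (((sgn k.2 : ℤ) * (2 * Real.pi * u k.1) : ℝ) : ℂ) * Complex.I := by
    push_cast
    ring
  rw [this, Complex.norm_exp_ofReal_mul_I]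

lemma zt_cont (k : α × Bool) : Continuous fun u : α → ℝ => zt u k := by
  unfold zt
  fun_prop

lemma zt_prod (u : α → ℝ) (p : Wd (α × Bool)) : ∏ j, zt u (p.2 j) =
    ∏ i, Complex.exp (((ex p i : ℤ) : ℂ) * (2 * Real.pi * Complex.I * (u i : ℂ))) := by
  unfold zt ex
  rw [← Complex.exp_sum, ← Complex.exp_sum]
  congr 1
  simp only [Int.cast_sum, Finset.sum_mul]
  rw [Finset.sum_comm]
  refine Finset.sum_congr rfl fun j _ => ?_
  simp only [Int.cast_ite, Int.cast_zero, ite_mul, zero_mul]
  rw [Finset.sum_ite_eq Finset.univ (p.2 j).1]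
  simp

open Classical in
lemma int_zt (p : Wd (α × Bool)) : ∫ u, ∏ j, zt u (p.2 j) ∂(Measure.pi fun _ : α => m1) =
    if Bal p then 1 else 0 := by
  simp only [zt_prod]
  have h1 := integral_fintype_prod_eq_prod (μ := fun _ : α => m1)
    (fun (i : α) (x : ℝ) => Complex.exp (((ex p i : ℤ) : ℂ) * (2 * Real.pi * Complex.I * (x : ℂ))))
  rw [h1]
  simp only [int_char]
  rw [Finset.prod_ite_zero]
  simp only [Finset.prod_const_one, Finset.mem_univ, true_imp_iff]
  exact if_congr (bal_iff p).symm rfl rfl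

open Classical in
/-- the finite case -/
lemma fin_case (hE : S_EXP) (c : α → ℝ) (κ : ℝ) (hκ : 0 ≤ κ) (hc : ∀ i, 0 ≤ c i) :
    ∏ i, I0 (2 * (κ * c i)) =
      ∑' p : Wd (α × Bool), if Bal p then ww (fun k => c k.1) κ p else 0 := by
  have hS : Summable (ww (fun k : α × Bool => c k.1) κ) :=
    (hE (α × Bool) (fun _ => 0) (fun k => c k.1) κ hκ (fun k => hc k.1)
      (Summable.of_finite)).1
  have hnn : ∀ p : Wd (α × Bool), 0 ≤ ww (fun k => c k.1) κ p := by
    intro p
    unfold ww
    have : 0 ≤ ∏ i, c (p.2 i).1 := Finset.prod_nonneg fun i _ => hc _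
    positivity
  have hS2 : Summable fun p : Wd (α × Bool) => if Bal p then ww (fun k => c k.1) κ p else 0 := by
    refine Summable.of_nonneg_of_le (fun p => ?_) (fun p => ?_) hS
    · split_ifs
      · exact hnn p
      · exact le_rfl
    · split_ifs
      · exact le_rfl
      · exact hnn p
  have hS3 : Summable fun p : Wd (α × Bool) =>
      (((if Bal p then ww (fun k => c k.1) κ p else 0 : ℝ)) : ℂ) :=
    Complex.ofRealCLM.summable hS2
  -- the product as an integral
  have h1 : ((∏ i, I0 (2 * (κ * c i)) : ℝ) : ℂ) =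
      ∫ u, Complex.exp ((κ : ℂ) * ∑ k : α × Bool, (c k.1 : ℂ) * zt u k)
        ∂(Measure.pi fun _ : α => m1) := by
    rw [Complex.ofReal_prod]
    simp only [I0_int]
    rw [← integral_fintype_prod_eq_prod (μ := fun _ : α => m1)
      (fun (i : α) (x : ℝ) => Complex.exp (((κ * c i : ℝ) : ℂ) *
        (Complex.exp (((sgn true : ℤ) : ℂ) * (2 * Real.pi * Complex.I * (x : ℂ))) +
          Complex.exp (((sgn false : ℤ) : ℂ) * (2 * Real.pi * Complex.I * (x : ℂ))))))]
    refine integral_congr_ae (Filter.Eventually.of_forall fun u => ?_)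
    simp only
    rw [← Complex.exp_sum]
    congr 1
    rw [Fintype.sum_prod_type, Finset.mul_sum]
    refine Finset.sum_congr rfl fun i _ => ?_
    rw [Fintype.sum_bool]
    unfold zt
    push_cast
    ring
  -- termwise integration
  obtain ⟨B, hB⟩ : ∃ B : ℝ, B = κ * ∑ k : α × Bool, c k.1 := ⟨_, rfl⟩
  have hbd : ∀ u : α → ℝ, ‖(κ : ℂ) * ∑ k : α × Bool, (c k.1 : ℂ) * zt u k‖ ≤ B := by
    intro u
    rw [norm_mul, Complex.norm_real, Real.norm_of_nonneg hκ, hB]
    refine mul_le_mul_of_nonneg_left ?_ hκ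
    refine (norm_sum_le _ _).trans (Finset.sum_le_sum fun k _ => ?_)
    rw [norm_mul, Complex.norm_real, Real.norm_of_nonneg (hc _), zt_norm, mul_one]
  have hcont : Continuous fun u : α → ℝ => (κ : ℂ) * ∑ k : α × Bool, (c k.1 : ℂ) * zt u k :=
    continuous_const.mul (continuous_finsetSum _ fun k _ => continuous_const.mul (zt_cont k))
  have h2 : HasSum (fun n : ℕ => ∫ u, ((κ : ℂ) * ∑ k : α × Bool, (c k.1 : ℂ) * zt u k) ^ n /
      (n.factorial : ℂ) ∂(Measure.pi fun _ : α => m1))
      (∫ u, Complex.exp ((κ : ℂ) * ∑ k : α × Bool, (c k.1 : ℂ) * zt u k)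
        ∂(Measure.pi fun _ : α => m1)) := by
    refine hasSum_integral_of_dominated_convergence (fun n _ => B ^ n / n.factorial)
      (fun n => ((hcont.pow n).div_const _).aestronglyMeasurable)
      (fun n => Filter.Eventually.of_forall fun u => ?_)
      (Filter.Eventually.of_forall fun u => Real.summable_pow_div_factorial B)
      (integrable_const _) (Filter.Eventually.of_forall fun u => ?_)
    · rw [norm_div, norm_pow, Complex.norm_natCast]
      gcongr
      exact hbd u
    · rw [Complex.exp_eq_exp_ℂ]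
      exact NormedSpace.expSeries_div_hasSum_exp _
  -- the terms
  have h3 : ∀ n : ℕ, ∫ u, ((κ : ℂ) * ∑ k : α × Bool, (c k.1 : ℂ) * zt u k) ^ n /
      (n.factorial : ℂ) ∂(Measure.pi fun _ : α => m1) =
      ∑ p : Fin n → α × Bool, (((if Bal ⟨n, p⟩ then ww (fun k => c k.1) κ ⟨n, p⟩ else 0 : ℝ)) : ℂ) := by
    intro n
    have h4 : ∀ u : α → ℝ, ((κ : ℂ) * ∑ k : α × Bool, (c k.1 : ℂ) * zt u k) ^ n /
        (n.factorial : ℂ) = ∑ p : Fin n → α × Bool, ((ww (fun k => c k.1) κ ⟨n, p⟩ : ℝ) : ℂ) *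
          ∏ j, zt u (p j) := by
      intro u
      rw [mul_pow, Fintype.sum_pow, Finset.mul_sum, Finset.sum_div]
      refine Finset.sum_congr rfl fun p _ => ?_
      unfold ww
      rw [Finset.prod_mul_distrib]
      push_cast
      ring
    simp only [h4]
    rw [integral_finsetSum]
    · refine Finset.sum_congr rfl fun p _ => ?_
      rw [integral_const_mul, int_zt ⟨n, p⟩]
      split_ifs
      · rw [mul_one]
      · rw [mul_zero, Complex.ofReal_zero]
    · intro p _
      refine Integrable.const_mul ?_ _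
      refine Integrable.of_bound ?_ 1 (Filter.Eventually.of_forall fun u => ?_)
      · exact (continuous_finsetProd _ fun j _ => zt_cont (p j)).aestronglyMeasurable
      · rw [norm_prod]
        exact le_of_eq (Finset.prod_eq_one fun j _ => zt_norm u (p j))
  have h5 : ((∑' p : Wd (α × Bool), (if Bal p then ww (fun k => c k.1) κ p else 0) : ℝ) : ℂ) =
      ∑' n : ℕ, ∑ p : Fin n → α × Bool,
        (((if Bal ⟨n, p⟩ then ww (fun k => c k.1) κ ⟨n, p⟩ else 0 : ℝ)) : ℂ) := by
    rw [Complex.ofReal_tsum, hS3.tsum_sigma]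
    refine tsum_congr fun n => ?_
    rw [tsum_fintype]
  apply Complex.ofReal_injective
  rw [h1, h5, ← h2.tsum_eq]
  exact tsum_congr h3

end fin

section transport

open Classical in
/-- the words with letters in a finite set -/
lemma fin_words {ι : Type} (F : Finset ι) (f : Wd (ι × Bool) → ℝ) :
    (∑' p : Wd (F × Bool), if Bal p then f ⟨p.1, fun j => ((p.2 j).1.1, (p.2 j).2)⟩ else 0) =
      ∑' q : Wd (ι × Bool), if Bal q ∧ ∀ j, (q.2 j).1 ∈ F then f q else 0 := by
  let G : Wd (F × Bool) → Wd (ι × Bool) := fun p => ⟨p.1, fun j => ((p.2 j).1.1, (p.2 j).2)⟩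
  have hG : Function.Injective G := by
    rintro ⟨n, p⟩ ⟨n', p'⟩ h
    have h1 : n = n' := congrArg Sigma.fst h
    subst h1
    have h2 : (fun j => (((p j).1.1, (p j).2) : ι × Bool)) = fun j => ((p' j).1.1, (p' j).2) :=
      eq_of_heq (Sigma.mk.inj h).2
    congr 1
    funext j
    have h3 := congrFun h2 j
    rw [Prod.mk.injEq] at h3
    exact Prod.ext (Subtype.ext h3.1) h3.2
  have hbal : ∀ p : Wd (F × Bool), Bal (G p) ↔ Bal p := by
    intro p
    have h1 : ∀ (i : F) (b : Bool), Nat.card {j : Fin (G p).1 // (G p).2 j = (i.1, b)} =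
        Nat.card {j : Fin p.1 // p.2 j = (i, b)} := by
      intro i b
      refine Nat.card_congr (Equiv.subtypeEquivRight fun j => ?_)
      change ((p.2 j).1.1, (p.2 j).2) = (i.1, b) ↔ _
      rw [Prod.mk.injEq, Prod.ext_iff, Subtype.ext_iff]
    constructor
    · intro h i
      rw [← h1, ← h1]
      exact h i.1
    · intro h i
      by_cases hi : i ∈ F
      · have := h ⟨i, hi⟩
        rw [← h1, ← h1] at this
        exact this
      · have h2 : ∀ b : Bool, Nat.card {j : Fin (G p).1 // (G p).2 j = (i, b)} = 0 := by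
          intro b
          have : IsEmpty {j : Fin (G p).1 // (G p).2 j = (i, b)} := by
            refine ⟨fun j => ?_⟩
            apply hi
            have h3 := congrArg Prod.fst j.2
            have h4 : ((G p).2 j.1).1 = (p.2 j.1).1.1 := rfl
            rw [h4] at h3
            have h5 := (p.2 j.1).1.2
            rwa [h3] at h5
          exact Nat.card_of_isEmpty
        rw [h2, h2]
  have h1 : ∀ p : Wd (F × Bool), (if Bal p then f (G p) else 0) =
      if Bal (G p) ∧ ∀ j, ((G p).2 j).1 ∈ F then f (G p) else 0 := by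
    intro p
    refine if_congr ?_ rfl rfl
    rw [hbal]
    exact ⟨fun h => ⟨h, fun j => (p.2 j).1.2⟩, fun h => h.1⟩
  have h2 : (∑' p : Wd (F × Bool), if Bal p then f (G p) else 0) =
      ∑' p : Wd (F × Bool), if Bal (G p) ∧ ∀ j, ((G p).2 j).1 ∈ F then f (G p) else 0 :=
    tsum_congr h1
  refine h2.trans ?_
  refine hG.tsum_eq (f := fun q : Wd (ι × Bool) =>
    if Bal q ∧ ∀ j, (q.2 j).1 ∈ F then f q else 0) ?_
  intro q hq
  rw [Function.mem_support] at hq
  have hq2 : Bal q ∧ ∀ j, (q.2 j).1 ∈ F := by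
    by_contra h
    exact hq (if_neg h)
  exact ⟨⟨q.1, fun j => (⟨(q.2 j).1, hq2.2 j⟩, (q.2 j).2)⟩, rfl⟩

end transport

open Classical in
/-- **LI/BES** -/
theorem main (hE : S_EXP) : S_BES := by
  intro ι c κ hκ hc hcs
  have hw : Summable fun k : ι × Bool => c k.1 := by
    have h0 := hcs.mul_of_nonneg (g := fun _ : Bool => (1 : ℝ)) Summable.of_finite hc
      (fun _ => zero_le_one)
    simpa using h0
  have hS : Summable (ww (fun k : ι × Bool => c k.1) κ) :=
    (hE (ι × Bool) (fun _ => 0) (fun k => c k.1) κ hκ (fun k => hc k.1) hw).1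
  have hnn : ∀ p : Wd (ι × Bool), 0 ≤ ww (fun k => c k.1) κ p := by
    intro p
    unfold ww
    have : 0 ≤ ∏ i, c (p.2 i).1 := Finset.prod_nonneg fun i _ => hc _
    positivity
  have h1 : ∀ F : Finset ι, ∏ i ∈ F, I0 (2 * κ * c i) =
      ∑' q : Wd (ι × Bool), if Bal q ∧ ∀ j, (q.2 j).1 ∈ F then ww (fun k => c k.1) κ q else 0 := by
    intro F
    rw [← fin_words F (ww (fun k => c k.1) κ), ← Finset.prod_coe_sort]
    have h2 := fin_case hE (fun i : F => c i.1) κ hκ (fun i => hc i.1)
    simp only [← mul_assoc] at h2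
    rw [h2]
    rfl
  unfold HasProd
  simp only [h1]
  refine tendsto_tsum_of_dominated_convergence (bound := ww (fun k => c k.1) κ) hS
    (fun q => ?_) (Filter.Eventually.of_forall fun F q => ?_)
  · refine tendsto_const_nhds.congr' ?_
    filter_upwards [Filter.eventually_ge_atTop (Finset.univ.image fun j => (q.2 j).1)] with F hF
    refine if_congr ⟨fun h => ⟨h, fun j => hF (Finset.mem_image_of_mem _ (Finset.mem_univ j))⟩,
      fun h => h.1⟩ rfl rfl
  · split_ifs
    · rw [Real.norm_of_nonneg (hnn q)]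
    · rw [norm_zero]
      exact hnn q

end Pool.Agent.N767.LI.BES
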